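import Pool.Agent.H29.RT.Targets
import Pool.Agent.H39.DP.DLBb

/-!
# Orders of zeros modulo `m` (energy method): module MSL, lower bound for the mean square of the
left side: lemmas
-/

set_option autoImplicit false

open Complex MeasureTheory Set Filter Topology

namespace Pool.Agent.H87.RT

open Pool.Agent.H29.RT Pool.Agent.H25.DL Pool.Agent.H25.DP Pool.Agent.H39.DP

/-! ### The quadratic form -/

lemma quad_eq (H W : ℝ) (S : Finset ℕ) (c : ℕ → ℂ) (ω : ℕ → ℝ) :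
    ((∫ u in H..(H + W), om ((u - H) / W) * ‖∑ k ∈ S, c k * cexp ((u * ω k : ℝ) * I)‖ ^ 2 : ℝ) : ℂ) =
      ∑ k ∈ S, ∑ k' ∈ S, c k * (starRingEnd ℂ) (c k') * II H W (ω k - ω k') := by
  have hom : Continuous fun u : ℝ => (om ((u - H) / W) : ℂ) :=
    Complex.continuous_ofReal.comp (continuous_om.comp (by fun_prop))
  rw [← intervalIntegral.integral_ofReal]
  have h2 : ∀ u : ℝ, ((om ((u - H) / W) * ‖∑ k ∈ S, c k * cexp ((u * ω k : ℝ) * I)‖ ^ 2 : ℝ) : ℂ) =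
      ∑ k ∈ S, ∑ k' ∈ S, c k * (starRingEnd ℂ) (c k') * ((om ((u - H) / W) : ℂ) *
        cexp (((ω k - ω k') * u : ℝ) * I)) := by
    intro u
    push_cast
    rw [← Complex.mul_conj', map_sum, Finset.sum_mul_sum, Finset.mul_sum]
    refine Finset.sum_congr rfl fun k _ => ?_
    rw [Finset.mul_sum]
    refine Finset.sum_congr rfl fun k' _ => ?_
    have h3 : cexp (((ω k - ω k') * u : ℝ) * I) = cexp ((u * ω k : ℝ) * I) *
        (starRingEnd ℂ) (cexp ((u * ω k' : ℝ) * I)) := by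
      rw [← Complex.exp_conj, ← Complex.exp_add, map_mul, Complex.conj_ofReal, Complex.conj_I]
      congr 1
      push_cast
      ring
    have h4 : cexp ((↑(ω k) - ↑(ω k')) * ↑u * I) = cexp (((ω k - ω k') * u : ℝ) * I) := by
      push_cast
      rfl
    have h5 : ∀ j, cexp (↑u * ↑(ω j) * I) = cexp ((u * ω j : ℝ) * I) := fun j => by
      push_cast
      rfl
    rw [h4, h5, h5, h3, map_mul]
    ring
  simp_rw [h2]
  rw [intervalIntegral.integral_finsetSum]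
  · refine Finset.sum_congr rfl fun k _ => ?_
    rw [intervalIntegral.integral_finsetSum]
    · refine Finset.sum_congr rfl fun k' _ => ?_
      rw [intervalIntegral.integral_const_mul]
      rfl
    · intro k' _
      refine Continuous.intervalIntegrable ?_ _ _
      exact continuous_const.mul (hom.mul (by fun_prop))
  · intro k _
    refine Continuous.intervalIntegrable ?_ _ _
    refine continuous_finsetSum _ fun k' _ => ?_
    exact continuous_const.mul (hom.mul (by fun_prop))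

lemma quad_ge (H W : ℝ) (hW : 0 < W) (S : Finset ℕ) (c : ℕ → ℂ) (ω : ℕ → ℝ) :
    16 / 35 * W * ∑ k ∈ S, ‖c k‖ ^ 2 -
      ∑ k ∈ S, ∑ k' ∈ S.erase k, ‖c k‖ * ‖c k'‖ * ‖II H W (ω k - ω k')‖ ≤
    ∫ u in H..(H + W), om ((u - H) / W) * ‖∑ k ∈ S, c k * cexp ((u * ω k : ℝ) * I)‖ ^ 2 := by
  have h1 := congrArg Complex.re (quad_eq H W S c ω)
  rw [Complex.ofReal_re, Complex.re_sum] at h1
  rw [h1, Finset.mul_sum, ← Finset.sum_sub_distrib]
  refine Finset.sum_le_sum fun k hk => ?_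
  rw [← Finset.add_sum_erase S _ hk, Complex.add_re, Complex.re_sum, sub_self, II_zero H W hW,
    Complex.mul_conj']
  have h2 : ((‖c k‖ : ℂ) ^ 2 * ((16 / 35 * W : ℝ) : ℂ)).re = 16 / 35 * W * ‖c k‖ ^ 2 := by
    rw [← Complex.ofReal_pow, ← Complex.ofReal_mul, Complex.ofReal_re]
    ring
  rw [h2, sub_eq_add_neg, ← Finset.sum_neg_distrib]
  refine add_le_add le_rfl (Finset.sum_le_sum fun k' _ => ?_)
  have h3 := (abs_le.1 (Complex.abs_re_le_norm (c k * (starRingEnd ℂ) (c k') *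
    II H W (ω k - ω k')))).1
  rw [norm_mul, norm_mul, RCLike.norm_conj] at h3
  exact h3

/-! ### The off-diagonal terms -/

lemma gap_aux {x y N : ℝ} (hx : 1 ≤ x) (hxy : x + 1 ≤ y) (hy : y ≤ N) :
    (√x)⁻¹ * (√y)⁻¹ * ((Real.log y - Real.log x) ^ 2)⁻¹ ≤ 2 * N * (y - x) ^ (-(3 / 2) : ℝ) := by
  obtain ⟨d, hd⟩ : ∃ d, d = y - x := ⟨_, rfl⟩
  have hd1 : 1 ≤ d := by linarith
  have hx0 : 0 < x := by linarith
  have hy0 : 0 < y := by linarith
  have hd0 : 0 < d := by linarith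
  have hN0 : 0 < N := by linarith
  have h1 : d / y ≤ Real.log y - Real.log x := by
    have h2 := Real.one_sub_inv_le_log_of_pos (div_pos hy0 hx0)
    rw [Real.log_div hy0.ne' hx0.ne', inv_div] at h2
    have h3 : d / y = 1 - x / y := by rw [hd]; field_simp
    rw [h3]
    exact h2
  have h4 : ((Real.log y - Real.log x) ^ 2)⁻¹ ≤ y ^ 2 / d ^ 2 := by
    have h5 : (0 : ℝ) < d / y := by positivity
    have h6 : (d / y) ^ 2 ≤ (Real.log y - Real.log x) ^ 2 := pow_le_pow_left₀ h5.le h1 2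
    calc ((Real.log y - Real.log x) ^ 2)⁻¹ ≤ ((d / y) ^ 2)⁻¹ := inv_anti₀ (by positivity) h6
      _ = _ := by rw [div_pow, inv_div]
  have h7 : (y - x) ^ (-(3 / 2) : ℝ) = (d * √d)⁻¹ := by
    rw [← hd, Real.rpow_neg hd0.le]
    congr 1
    rw [show (3 / 2 : ℝ) = 1 + 1 / 2 by norm_num, Real.rpow_add hd0, Real.rpow_one,
      ← Real.sqrt_eq_rpow]
  have h8 : √y ≤ 2 * √d * √x := by
    have h9 : y ≤ 2 ^ 2 * (d * x) := by nlinarith
    calc √y ≤ √(2 ^ 2 * (d * x)) := Real.sqrt_le_sqrt h9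
      _ = 2 * √d * √x := by
        rw [Real.sqrt_mul (by positivity), Real.sqrt_sq (by norm_num), Real.sqrt_mul hd0.le]
        ring
  have hsx : 0 < √x := Real.sqrt_pos.2 hx0
  have hsy : 0 < √y := Real.sqrt_pos.2 hy0
  have hsd : 0 < √d := Real.sqrt_pos.2 hd0
  rw [h7]
  calc (√x)⁻¹ * (√y)⁻¹ * ((Real.log y - Real.log x) ^ 2)⁻¹
      ≤ (√x)⁻¹ * (√y)⁻¹ * (y ^ 2 / d ^ 2) := by gcongr
    _ = y * (√y * (√x)⁻¹) / d ^ 2 := by
        have : y = √y * √y := (Real.mul_self_sqrt hy0.le).symm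
        field_simp
        nlinarith
    _ ≤ N * (2 * √d * √x * (√x)⁻¹) / d ^ 2 := by gcongr
    _ = 2 * N * (d * √d)⁻¹ := by
        have : d = √d * √d := (Real.mul_self_sqrt hd0.le).symm
        field_simp
        nlinarith

lemma gap {k k' N : ℕ} (hk : 1 ≤ k) (hk' : 1 ≤ k') (hkN : k ≤ N) (hkN' : k' ≤ N) (hne : k ≠ k') :
    (√(k : ℝ))⁻¹ * (√(k' : ℝ))⁻¹ * ((Real.log k - Real.log k') ^ 2)⁻¹ ≤
      2 * N * |(((k : ℤ) - (k' : ℤ) : ℤ) : ℝ)| ^ (-(3 / 2) : ℝ) := by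
  have h1 : (1 : ℝ) ≤ k := by exact_mod_cast hk
  have h2 : (1 : ℝ) ≤ k' := by exact_mod_cast hk'
  have h3 : (k : ℝ) ≤ N := by exact_mod_cast hkN
  have h4 : (k' : ℝ) ≤ N := by exact_mod_cast hkN'
  push_cast
  rcases Nat.lt_or_gt_of_ne hne with h | h
  · have h5 : (k : ℝ) + 1 ≤ k' := by exact_mod_cast h
    have h6 := gap_aux h1 h5 h4
    rw [abs_sub_comm, abs_of_pos (by linarith : (0 : ℝ) < k' - k)]
    have h7 : (Real.log k - Real.log k') ^ 2 = (Real.log k' - Real.log k) ^ 2 := by ring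
    rw [h7]
    exact h6
  · have h5 : (k' : ℝ) + 1 ≤ k := by exact_mod_cast h
    have h6 := gap_aux h2 h5 h3
    rw [abs_of_pos (by linarith : (0 : ℝ) < k - k'), mul_comm (√(k : ℝ))⁻¹]
    exact h6

/-- the constant -/
noncomputable def Kc : ℝ := ∑' m : ℤ, |(m : ℝ)| ^ (-(3 / 2) : ℝ)

lemma Kc_nonneg : 0 ≤ Kc := tsum_nonneg fun m => by positivity

lemma sum_le_Kc (S : Finset ℕ) (k : ℕ) :
    ∑ k' ∈ S, |(((k : ℤ) - (k' : ℤ) : ℤ) : ℝ)| ^ (-(3 / 2) : ℝ) ≤ Kc := by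
  classical
  have h1 : Set.InjOn (fun k' : ℕ => (k : ℤ) - (k' : ℤ)) (S : Set ℕ) := by
    intro a _ b _ hab
    have hab' : (k : ℤ) - (a : ℤ) = (k : ℤ) - (b : ℤ) := hab
    omega
  have h2 := Finset.sum_image (f := fun m : ℤ => |(m : ℝ)| ^ (-(3 / 2) : ℝ)) h1
  rw [← h2]
  exact (Real.summable_abs_int_rpow (by norm_num : (1 : ℝ) < 3 / 2)).sum_le_tsum _
    fun m _ => by positivity

/-! ### The diagonal -/

lemma gauss_ge {β R a b l : ℝ} (hβ : 0 < β) (hR : 0 ≤ R) (ha : a + R ≤ l) (hb : l ≤ b - R) :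
    √(2 * Real.pi) / β - Real.exp (-(β ^ 2 * R ^ 2 / 4)) * (√(4 * Real.pi) / β) ≤
      ∫ ξ in a..b, Real.exp (-(β ^ 2 * (l - ξ) ^ 2 / 4)) ^ 2 := by
  obtain ⟨G, hG⟩ : ∃ G : ℝ → ℝ, G = fun v => Real.exp (-(β ^ 2 / 2) * v ^ 2) := ⟨_, rfl⟩
  have hGi : Integrable G := by rw [hG]; exact integrable_exp_neg_mul_sq (by positivity)
  have hG0 : ∀ v, 0 ≤ G v := fun v => by rw [hG]; positivity
  have hGi2 : Integrable fun v : ℝ => Real.exp (-(β ^ 2 / 4) * v ^ 2) :=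
    integrable_exp_neg_mul_sq (by positivity)
  have h1 : ∫ v, G v = √(2 * Real.pi) / β := by
    rw [hG, integral_gaussian]
    rw [show Real.pi / (β ^ 2 / 2) = (2 * Real.pi) / β ^ 2 by field_simp, Real.sqrt_div (by positivity),
      Real.sqrt_sq hβ.le]
  have h1' : ∫ v : ℝ, Real.exp (-(β ^ 2 / 4) * v ^ 2) = √(4 * Real.pi) / β := by
    rw [integral_gaussian]
    rw [show Real.pi / (β ^ 2 / 4) = (4 * Real.pi) / β ^ 2 by field_simp, Real.sqrt_div (by positivity),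
      Real.sqrt_sq hβ.le]
  have h2 : ∫ ξ in a..b, Real.exp (-(β ^ 2 * (l - ξ) ^ 2 / 4)) ^ 2 = ∫ v in (l - b)..(l - a), G v := by
    rw [← intervalIntegral.integral_comp_sub_left]
    refine intervalIntegral.integral_congr fun ξ _ => ?_
    rw [hG]
    change Real.exp (-(β ^ 2 * (l - ξ) ^ 2 / 4)) ^ 2 = Real.exp (-(β ^ 2 / 2) * (l - ξ) ^ 2)
    rw [← Real.exp_nat_mul]
    congr 1
    push_cast
    ring
  rw [h2, intervalIntegral.integral_of_le (by linarith)]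
  have h3 : ∫ v in Ioc (l - b) (l - a), G v = (∫ v, G v) - ∫ v in (Ioc (l - b) (l - a))ᶜ, G v := by
    rw [← integral_add_compl measurableSet_Ioc hGi]
    ring
  rw [h3, h1]
  refine sub_le_sub le_rfl ?_
  rw [← h1', ← integral_const_mul]
  calc ∫ v in (Ioc (l - b) (l - a))ᶜ, G v
      ≤ ∫ v in (Ioc (l - b) (l - a))ᶜ, Real.exp (-(β ^ 2 * R ^ 2 / 4)) *
          Real.exp (-(β ^ 2 / 4) * v ^ 2) := by
        refine setIntegral_mono_on hGi.integrableOn (hGi2.const_mul _).integrableOn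
          measurableSet_Ioc.compl fun v hv => ?_
        rw [hG]
        simp only
        rw [← Real.exp_add]
        apply Real.exp_le_exp.2
        have h4 : R ^ 2 ≤ v ^ 2 := by
          rw [mem_compl_iff, mem_Ioc, not_and_or, not_lt, not_le] at hv
          rcases hv with hv | hv <;> nlinarith
        have h5 : 0 ≤ β ^ 2 := sq_nonneg _
        nlinarith [mul_le_mul_of_nonneg_left h4 h5]
    _ ≤ ∫ v : ℝ, Real.exp (-(β ^ 2 * R ^ 2 / 4)) * Real.exp (-(β ^ 2 / 4) * v ^ 2) :=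
        setIntegral_le_integral (hGi2.const_mul _) (ae_of_all _ fun v => by positivity)

/-! ### Grouping -/

variable {ι : Type} [Fintype ι]

/-- the length -/
noncomputable def NL (ι : Type) [Fintype ι] (D T : ℝ) : ℕ := ⌊(2 : ℝ) ^ Fintype.card ι * T ^ D⌋₊

/-- the coefficient -/
noncomputable def aa (f : ι → Fac) (D T : ℝ) (k : ℕ) : ℂ :=
  (starRingEnd ℂ) (at' f D T k) * (((k : ℝ) ^ (-(1 / 2) : ℝ) : ℝ) : ℂ)

lemma AL_eq (h : T_GRP) (f : ι → Fac) (β D T ξ u : ℝ) (hr : ∀ l, (f l).r = 1) (hD : 0 < D)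
    (hT : 1 ≤ T) : AL f β D T ξ u = ∑ k ∈ Finset.Icc 1 (NL ι D T),
      (aa f D T k * (Real.exp (-(β ^ 2 * (Real.log k - ξ) ^ 2 / 4)) : ℂ)) *
        cexp ((u * Real.log k : ℝ) * I) := by
  classical
  obtain ⟨-, h2, h3, -⟩ := h ι f D hr hD
  have hmem : ∀ z ∈ TU f D T, (∏ l, z l) ∈ Finset.Icc 1 (NL ι D T) := by
    intro z hz
    obtain ⟨h4, h5⟩ := h2 T hT z hz
    rw [Finset.mem_Icc]
    exact ⟨h4, Nat.le_floor h5⟩
  have hpos : ∀ z ∈ TU f D T, ∀ l, 1 ≤ z l := by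
    intro z hz l
    have h4 := (h2 T hT z hz).1
    have h5 : ∏ l, z l ≠ 0 := by omega
    rw [Finset.prod_ne_zero_iff] at h5
    have := h5 l (Finset.mem_univ l)
    omega
  unfold AL
  rw [← Finset.sum_fiberwise_of_maps_to hmem]
  refine Finset.sum_congr rfl fun k _ => ?_
  have h6 : at' f D T k = ∑ z ∈ (TU f D T).filter (fun z => ∏ l, z l = k), cc f z := by
    unfold at'
    refine Finset.sum_congr ?_ fun _ _ => rfl
    ext z
    simp only [Finset.mem_filter]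
  unfold aa
  rw [h6, map_sum, Finset.sum_mul, Finset.sum_mul, Finset.sum_mul]
  refine Finset.sum_congr rfl fun z hz => ?_
  rw [Finset.mem_filter] at hz
  obtain ⟨h7, h8⟩ := h3 z (hpos z hz.1)
  rw [hz.2] at h7 h8
  rw [h7, h8, map_mul, Complex.conj_ofReal]
  ring

lemma norm_aa_sq (f : ι → Fac) (D T : ℝ) {k : ℕ} (hk : 1 ≤ k) :
    ‖aa f D T k‖ ^ 2 = ‖at' f D T k‖ ^ 2 / k := by
  have hk0 : (0 : ℝ) < k := by exact_mod_cast hk
  unfold aa
  rw [norm_mul, RCLike.norm_conj, Complex.norm_real, Real.norm_of_nonneg (by positivity), mul_pow,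
    ← Real.rpow_natCast ((k : ℝ) ^ (-(1 / 2) : ℝ)), ← Real.rpow_mul hk0.le]
  norm_num
  rw [Real.rpow_neg_one]
  rfl

lemma norm_aa_le (f : ι → Fac) (D T : ℝ) {k : ℕ} (hk : 1 ≤ k) :
    ‖aa f D T k‖ = ‖at' f D T k‖ * (√(k : ℝ))⁻¹ := by
  have hk0 : (0 : ℝ) < k := by exact_mod_cast hk
  unfold aa
  rw [norm_mul, RCLike.norm_conj, Complex.norm_real, Real.norm_of_nonneg (by positivity),
    Real.rpow_neg hk0.le, ← Real.sqrt_eq_rpow]

end Pool.Agent.H87.RT
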