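import Pool.Agent.H29.RT.Targets

/-!
# Orders of zeros modulo `m` (energy method): module EUL, the ratio of two values of an Euler product
-/

set_option autoImplicit false

open MeasureTheory Set Filter Topology

namespace Pool.Agent.H87.RT

open Pool.Agent.H29.RT

/-- the terms of the series -/
noncomputable def ft (b : ℕ → ℝ) (σ : ℝ) (k : ℕ) : ℝ := b k * (k : ℝ) ^ (-(1 + σ) : ℝ)

lemma ft_zero (b : ℕ → ℝ) {σ : ℝ} (hσ : 0 ≤ σ) : ft b σ 0 = 0 := by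
  unfold ft
  rw [Nat.cast_zero, Real.zero_rpow (by linarith), mul_zero]

lemma ft_one {b : ℕ → ℝ} (hb : b 1 = 1) (σ : ℝ) : ft b σ 1 = 1 := by
  unfold ft
  rw [hb, Nat.cast_one, Real.one_rpow, mul_one]

lemma ft_nonneg {b : ℕ → ℝ} (hb : ∀ k, 0 ≤ b k) (σ : ℝ) (k : ℕ) : 0 ≤ ft b σ k :=
  mul_nonneg (hb k) (by positivity)

lemma ft_mul {b : ℕ → ℝ} (hb : ∀ m n : ℕ, Nat.Coprime m n → b (m * n) = b m * b n) (σ : ℝ)
    {m n : ℕ} (h : Nat.Coprime m n) : ft b σ (m * n) = ft b σ m * ft b σ n := by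
  unfold ft
  rw [hb m n h, Nat.cast_mul, Real.mul_rpow (Nat.cast_nonneg _) (Nat.cast_nonneg _)]
  ring

lemma ft_summable {b : ℕ → ℝ} (hb0 : ∀ k, 0 ≤ b k)
    (hb : ∀ ε : ℝ, 0 < ε → ∃ C : ℝ, ∀ k : ℕ, 1 ≤ k → b k ≤ C * (k : ℝ) ^ ε) {σ : ℝ} (hσ : 0 < σ) :
    Summable (ft b σ) := by
  obtain ⟨C, hC⟩ := hb (σ / 2) (by linarith)
  have h1 : Summable fun k : ℕ => C * (k : ℝ) ^ (-(1 + σ / 2) : ℝ) :=
    (Real.summable_nat_rpow.2 (by linarith)).mul_left C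
  refine Summable.of_nonneg_of_le (ft_nonneg hb0 σ) (fun k => ?_) h1
  rcases Nat.eq_zero_or_pos k with hk | hk
  · subst hk
    rw [ft_zero b hσ.le, Nat.cast_zero, Real.zero_rpow (by linarith), mul_zero]
  · have hk' : (0 : ℝ) < k := by exact_mod_cast hk
    unfold ft
    calc b k * (k : ℝ) ^ (-(1 + σ) : ℝ) ≤ C * (k : ℝ) ^ (σ / 2) * (k : ℝ) ^ (-(1 + σ) : ℝ) :=
          mul_le_mul_of_nonneg_right (hC k hk) (by positivity)
      _ = C * (k : ℝ) ^ (-(1 + σ / 2) : ℝ) := by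
          rw [mul_assoc, ← Real.rpow_add hk']
          congr 2
          ring

/-- the local factor -/
noncomputable def Sp (b : ℕ → ℝ) (σ : ℝ) (p : ℕ) : ℝ := ∑' e : ℕ, ft b σ (p ^ e)

/-- the base of the geometric majorant -/
noncomputable def qq (p : ℕ) : ℝ := (p : ℝ) ^ (-(3 / 4) : ℝ)

lemma qq_pos {p : ℕ} (hp : 2 ≤ p) : 0 < qq p := by
  unfold qq
  have : (0 : ℝ) < p := by exact_mod_cast (by omega : 0 < p)
  positivity

lemma qq_le {p : ℕ} (hp : 2 ≤ p) : qq p ≤ 2 / 3 := by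
  have h1 : qq p ≤ (2 : ℝ) ^ (-(3 / 4) : ℝ) := by
    unfold qq
    exact Real.rpow_le_rpow_of_nonpos (by norm_num) (by exact_mod_cast hp) (by norm_num)
  refine h1.trans ?_
  have h2 : ((2 : ℝ) ^ (-(3 / 4) : ℝ)) ^ 4 ≤ (2 / 3 : ℝ) ^ 4 := by
    rw [← Real.rpow_natCast, ← Real.rpow_mul (by norm_num)]
    norm_num
  exact le_of_pow_le_pow_left₀ (by norm_num) (by norm_num) h2

lemma ft_pow_le {b : ℕ → ℝ} {C : ℝ} (hC : ∀ k : ℕ, 1 ≤ k → b k ≤ C * (k : ℝ) ^ (1 / 4 : ℝ))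
    (hC0 : 0 ≤ C) {σ : ℝ} (hσ : 0 ≤ σ) {p : ℕ} (hp : 2 ≤ p) (e : ℕ) :
    ft b σ (p ^ e) ≤ C * qq p ^ e := by
  have hp0 : (0 : ℝ) < p := by exact_mod_cast (by omega : 0 < p)
  have hk : 1 ≤ p ^ e := Nat.one_le_pow _ _ (by omega)
  have hk0 : (0 : ℝ) < ((p ^ e : ℕ) : ℝ) := by exact_mod_cast (by omega : 0 < p ^ e)
  have hk1 : (1 : ℝ) ≤ ((p ^ e : ℕ) : ℝ) := by exact_mod_cast hk
  unfold ft
  calc b (p ^ e) * ((p ^ e : ℕ) : ℝ) ^ (-(1 + σ) : ℝ)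
      ≤ C * ((p ^ e : ℕ) : ℝ) ^ (1 / 4 : ℝ) * ((p ^ e : ℕ) : ℝ) ^ (-(1 + σ) : ℝ) :=
        mul_le_mul_of_nonneg_right (hC _ hk) (by positivity)
    _ = C * ((p ^ e : ℕ) : ℝ) ^ (1 / 4 + -(1 + σ) : ℝ) := by
        rw [mul_assoc, ← Real.rpow_add hk0]
    _ ≤ C * ((p ^ e : ℕ) : ℝ) ^ (-(3 / 4) : ℝ) := by
        refine mul_le_mul_of_nonneg_left ?_ hC0
        exact Real.rpow_le_rpow_of_exponent_le hk1 (by linarith)
    _ = C * qq p ^ e := by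
        unfold qq
        rw [← Real.rpow_natCast, ← Real.rpow_mul hp0.le, mul_comm (-(3 / 4) : ℝ), Real.rpow_mul hp0.le,
          Real.rpow_natCast]
        push_cast
        rfl

lemma summable_qq {p : ℕ} (hp : 2 ≤ p) : Summable fun e : ℕ => qq p ^ e :=
  summable_geometric_of_lt_one (qq_pos hp).le (by linarith [qq_le hp])

lemma tsum_qq_le {p : ℕ} (hp : 2 ≤ p) : ∑' e : ℕ, qq p ^ e ≤ 3 := by
  rw [tsum_geometric_of_lt_one (qq_pos hp).le (by linarith [qq_le hp])]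
  have h := qq_le hp
  rw [inv_le_comm₀ (by linarith) (by norm_num)]
  linarith

lemma log_sub_le {y : ℝ} (hy : 0 ≤ y) : |Real.log (1 + y) - y| ≤ y ^ 2 := by
  have h1 : Real.log (1 + y) ≤ y := by
    have := Real.log_le_sub_one_of_pos (by linarith : 0 < 1 + y)
    linarith
  have h2 : y - y ^ 2 ≤ Real.log (1 + y) := by
    have h3 := Real.one_sub_inv_le_log_of_pos (by linarith : 0 < 1 + y)
    have h4 : y - y ^ 2 ≤ 1 - (1 + y)⁻¹ := by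
      have h5 : 1 - (1 + y)⁻¹ = y / (1 + y) := by
        field_simp
        ring
      rw [h5, le_div_iff₀ (by linarith)]
      nlinarith [pow_nonneg hy 3]
    linarith
  rw [abs_le]
  constructor <;> linarith

/-- the remainder -/
noncomputable def Ep (b : ℕ → ℝ) (σ : ℝ) (p : ℕ) : ℝ := Real.log (Sp b σ p) - ft b σ p

lemma Sp_bounds {b : ℕ → ℝ} (hb0 : ∀ k, 0 ≤ b k) (hb1 : b 1 = 1) {C : ℝ}
    (hC : ∀ k : ℕ, 1 ≤ k → b k ≤ C * (k : ℝ) ^ (1 / 4 : ℝ))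
    (hC0 : 0 ≤ C) {σ : ℝ} (hσ : 0 ≤ σ) {p : ℕ} (hp : 2 ≤ p) :
    1 ≤ Sp b σ p ∧ |Ep b σ p| ≤ (9 * C ^ 2 + 3 * C) * qq p ^ 2 := by
  have hs : Summable fun e : ℕ => ft b σ (p ^ e) :=
    Summable.of_nonneg_of_le (fun e => ft_nonneg hb0 σ _)
      (fun e => ft_pow_le hC hC0 hσ hp e) ((summable_qq hp).mul_left C)
  have h1 := hs.sum_add_tsum_nat_add 2
  rw [Finset.sum_range_succ, Finset.sum_range_one, pow_zero, pow_one, ft_one hb1] at h1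
  obtain ⟨r, hr⟩ : ∃ r, r = ∑' e : ℕ, ft b σ (p ^ (e + 2)) := ⟨_, rfl⟩
  have hr0 : 0 ≤ r := by rw [hr]; exact tsum_nonneg fun e => ft_nonneg hb0 σ _
  have hr1 : r ≤ 3 * C * qq p ^ 2 := by
    have h2 : r ≤ ∑' e : ℕ, C * qq p ^ 2 * qq p ^ e := by
      rw [hr]
      refine Summable.tsum_le_tsum (fun e => ?_) ((summable_nat_add_iff 2).2 hs)
        ((summable_qq hp).mul_left _)
      refine (ft_pow_le hC hC0 hσ hp (e + 2)).trans (le_of_eq ?_)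
      ring
    rw [tsum_mul_left] at h2
    have h3 := tsum_qq_le hp
    have h4 : 0 ≤ C * qq p ^ 2 := by have := qq_pos hp; positivity
    nlinarith
  have hx0 := ft_nonneg hb0 σ p
  have hx1 : ft b σ p ≤ C * qq p := by
    have := ft_pow_le hC hC0 hσ hp 1
    rwa [pow_one, pow_one] at this
  have hS : Sp b σ p = 1 + (ft b σ p + r) := by
    unfold Sp
    rw [← h1, hr]
    ring
  have hq := qq_pos hp
  have hq1 := qq_le hp
  refine ⟨by rw [hS]; linarith, ?_⟩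
  have hy0 : 0 ≤ ft b σ p + r := by linarith
  have hy1 : ft b σ p + r ≤ 3 * C * qq p := by
    have h5 : 3 * C * qq p ^ 2 ≤ 3 * C * (2 / 3 * qq p) := by
      refine mul_le_mul_of_nonneg_left ?_ (by positivity)
      nlinarith
    linarith
  have h6 := log_sub_le hy0
  unfold Ep
  rw [hS]
  have h7 : (ft b σ p + r) ^ 2 ≤ (3 * C * qq p) ^ 2 := pow_le_pow_left₀ hy0 hy1 2
  have h8 : Real.log (1 + (ft b σ p + r)) - ft b σ p =
      (Real.log (1 + (ft b σ p + r)) - (ft b σ p + r)) + r := by ring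
  rw [h8]
  calc _ ≤ |Real.log (1 + (ft b σ p + r)) - (ft b σ p + r)| + |r| := abs_add_le _ _
    _ ≤ (3 * C * qq p) ^ 2 + 3 * C * qq p ^ 2 := by
        rw [abs_of_nonneg hr0]
        exact add_le_add (h6.trans h7) hr1
    _ = _ := by ring

lemma summable_qq_sq : Summable fun p : Nat.Primes => qq p ^ 2 := by
  have h1 : Summable fun p : Nat.Primes => ((p : ℕ) : ℝ) ^ (-(3 / 2) : ℝ) :=
    Nat.Primes.summable_rpow.2 (by norm_num)
  refine h1.congr fun p => ?_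
  unfold qq
  rw [← Real.rpow_natCast, ← Real.rpow_mul (Nat.cast_nonneg _)]
  norm_num

lemma tendsto_ft {b : ℕ → ℝ} (s k : ℕ) (hk : 1 ≤ k) :
    Tendsto (fun L : ℝ => ft b (s / L) k) atTop (𝓝 (ft b 0 k)) := by
  have hk0 : (0 : ℝ) < k := by exact_mod_cast hk
  have h1 : Tendsto (fun L : ℝ => (s : ℝ) / L) atTop (𝓝 0) := tendsto_const_nhds.div_atTop tendsto_id
  have h2 : Continuous fun x : ℝ => ft b x k := by
    unfold ft
    refine continuous_const.mul ?_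
    exact Real.continuous_const_rpow hk0.ne' |>.comp (by fun_prop)
  exact (h2.tendsto 0).comp h1

lemma tendsto_Ep {b : ℕ → ℝ} (hb0 : ∀ k, 0 ≤ b k) (hb1 : b 1 = 1) {C : ℝ}
    (hC : ∀ k : ℕ, 1 ≤ k → b k ≤ C * (k : ℝ) ^ (1 / 4 : ℝ)) (hC0 : 0 ≤ C) (s : ℕ) {p : ℕ}
    (hp : 2 ≤ p) : Tendsto (fun L : ℝ => Ep b (s / L) p) atTop (𝓝 (Ep b 0 p)) := by
  have h1 : Tendsto (fun L : ℝ => Sp b (s / L) p) atTop (𝓝 (Sp b 0 p)) := by
    unfold Sp
    refine tendsto_tsum_of_dominated_convergence ((summable_qq hp).mul_left C) (fun e => ?_) ?_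
    · exact tendsto_ft s (p ^ e) (Nat.one_le_pow _ _ (by omega))
    · filter_upwards [eventually_gt_atTop 0] with L hL e
      have hσ : 0 ≤ (s : ℝ) / L := by positivity
      rw [Real.norm_eq_abs, abs_of_nonneg (ft_nonneg hb0 _ _)]
      exact ft_pow_le hC hC0 hσ hp e
  unfold Ep
  have h2 : Sp b 0 p ≠ 0 := by
    have := (Sp_bounds hb0 hb1 hC hC0 le_rfl hp).1
    linarith
  exact (h1.log h2).sub (tendsto_ft s p (by omega))

lemma tendsto_sum_Ep {b : ℕ → ℝ} (hb0 : ∀ k, 0 ≤ b k) (hb1 : b 1 = 1) {C : ℝ}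
    (hC : ∀ k : ℕ, 1 ≤ k → b k ≤ C * (k : ℝ) ^ (1 / 4 : ℝ)) (hC0 : 0 ≤ C) (s : ℕ) :
    Tendsto (fun L : ℝ => ∑' p : Nat.Primes, Ep b (s / L) p) atTop
      (𝓝 (∑' p : Nat.Primes, Ep b 0 p)) := by
  refine tendsto_tsum_of_dominated_convergence
    (summable_qq_sq.mul_left (9 * C ^ 2 + 3 * C)) (fun p => ?_) ?_
  · exact tendsto_Ep hb0 hb1 hC hC0 s p.2.two_le
  · filter_upwards [eventually_gt_atTop 0] with L hL p
    have hσ : 0 ≤ (s : ℝ) / L := by positivity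
    exact (Sp_bounds hb0 hb1 hC hC0 hσ p.2.two_le).2

lemma hasSum_log {b : ℕ → ℝ} (hb0 : ∀ k, 0 ≤ b k) (hb1 : b 1 = 1)
    (hmul : ∀ m n : ℕ, Nat.Coprime m n → b (m * n) = b m * b n)
    (hb : ∀ ε : ℝ, 0 < ε → ∃ C : ℝ, ∀ k : ℕ, 1 ≤ k → b k ≤ C * (k : ℝ) ^ ε) {C : ℝ}
    (hC : ∀ k : ℕ, 1 ≤ k → b k ≤ C * (k : ℝ) ^ (1 / 4 : ℝ)) (hC0 : 0 ≤ C)
    {σ : ℝ} (hσ : 0 < σ) : 0 < ∑' k, ft b σ k ∧
    HasSum (fun p : Nat.Primes => Real.log (Sp b σ p)) (Real.log (∑' k, ft b σ k)) := by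
  have hs := ft_summable hb0 hb hσ
  have h1 : HasProd (fun p : Nat.Primes => Sp b σ p) (∑' k, ft b σ k) :=
    EulerProduct.eulerProduct_hasProd (ft_one hb1 σ) (fun {m n} h => ft_mul hmul σ h)
      (by simpa [Real.norm_eq_abs, abs_of_nonneg (ft_nonneg hb0 σ _)] using hs) (ft_zero b hσ.le)
  have h2 : 0 < ∑' k, ft b σ k := by
    have h3 : ft b σ 1 ≤ ∑' k, ft b σ k := hs.le_tsum 1 fun k _ => ft_nonneg hb0 σ k
    rw [ft_one hb1] at h3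
    linarith
  refine ⟨h2, ?_⟩
  have h4 := Filter.Tendsto.log h1 h2.ne'
  refine Tendsto.congr (fun s => ?_) h4
  rw [Real.log_prod]
  intro p _
  have := (Sp_bounds hb0 hb1 hC hC0 hσ.le p.2.two_le).1
  linarith

theorem pf_EUL : T_EUL := by
  intro b α hb0 hb1 hmul hb hM
  refine ⟨fun σ hσ => ft_summable hb0 hb hσ, fun s hs => ?_⟩
  obtain ⟨C', hC'⟩ := hb (1 / 4) (by norm_num)
  obtain ⟨C, hC, hC0⟩ : ∃ C : ℝ, (∀ k : ℕ, 1 ≤ k → b k ≤ C * (k : ℝ) ^ (1 / 4 : ℝ)) ∧ 0 ≤ C := by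
    refine ⟨|C'|, fun k hk => (hC' k hk).trans ?_, abs_nonneg _⟩
    exact mul_le_mul_of_nonneg_right (le_abs_self _) (by positivity)
  have hs0 : (0 : ℝ) < s := by exact_mod_cast hs
  have h1 := (hM s hs).add ((tendsto_sum_Ep hb0 hb1 hC hC0 s).sub (tendsto_sum_Ep hb0 hb1 hC hC0 1))
  rw [sub_self, add_zero] at h1
  have h2 := (Real.continuous_exp.tendsto _).comp h1
  have h3 : Real.exp (-(α * Real.log s)) = (s : ℝ) ^ (-α) := by
    rw [Real.rpow_def_of_pos hs0]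
    congr 1
    ring
  rw [h3] at h2
  refine Tendsto.congr' ?_ h2
  filter_upwards [eventually_gt_atTop 0] with L hL
  have hσ : 0 < (s : ℝ) / L := by positivity
  have hσ1 : 0 < (1 : ℝ) / L := by positivity
  obtain ⟨hp1, hl1⟩ := hasSum_log hb0 hb1 hmul hb hC hC0 hσ
  obtain ⟨hp2, hl2⟩ := hasSum_log hb0 hb1 hmul hb hC hC0 hσ1
  have hE : ∀ {σ : ℝ}, 0 ≤ σ → Summable fun p : Nat.Primes => Ep b σ p := by
    intro σ hσ
    refine Summable.of_norm_bounded (summable_qq_sq.mul_left (9 * C ^ 2 + 3 * C)) fun p => ?_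
    exact (Sp_bounds hb0 hb1 hC hC0 hσ p.2.two_le).2
  have hE1 := hE hσ.le
  have hE2 := hE hσ1.le
  have hd := (hl1.sub hl2).tsum_eq
  have hd1 : Summable fun p : Nat.Primes => b p * ((p : ℝ) ^ (-(1 + s / L) : ℝ) -
      (p : ℝ) ^ (-(1 + 1 / L) : ℝ)) := by
    refine (((hl1.summable.sub hE1)).sub (hl2.summable.sub hE2)).congr fun p => ?_
    unfold Ep ft
    ring
  simp only [Function.comp, Nat.cast_one]
  have e1 : (∑' k : ℕ, b k * (k : ℝ) ^ (-(1 + s / L) : ℝ)) = ∑' k, ft b (s / L) k := rfl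
  have e2 : (∑' k : ℕ, b k * (k : ℝ) ^ (-(1 + 1 / L) : ℝ)) = ∑' k, ft b (1 / L) k := rfl
  rw [e1, e2, ← Real.exp_log (div_pos hp1 hp2), Real.log_div hp1.ne' hp2.ne', ← hd]
  congr 1
  rw [← hE1.tsum_sub hE2, ← hd1.tsum_add (hE1.sub hE2)]
  refine tsum_congr fun p => ?_
  unfold Ep ft
  ring

end Pool.Agent.H87.RT
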