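import Pool.Agent.H29.RT.Targets
import Pool.Agent.H25.MZ.FG3

/-!
# Orders of zeros modulo `m` (energy method): module FDR, Dirichlet `L`-functions
-/

set_option autoImplicit false

open Complex MeasureTheory Set Filter Topology

namespace Pool.Agent.H87.RT

open Pool.Agent.H29.RT Pool.Agent.H25.DL Pool.Agent.H25.DP Pool.Agent.H25.MZ Pool.Agent.H23.GLH
open Pool.Agent.H25.HK Pool.Agent.H48.DL

lemma agrees_dir (π : PrimChar) (L : LF) (hnum : L.num = π.L) (hden : L.den = fun _ => 1) :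
    Agrees L π.L := by
  intro z hz
  have h2I : 0 < (2 + I : ℂ).im := by simp
  have h2I' : 1 < (2 + I : ℂ).re := by simp
  have h1 : analyticOrderAt L.num z ≠ ⊤ :=
    order_ne_top_of_ne (fun s hs => (L.diff s hs).1) h2I
      (Pool.Agent.H62.DL.num_ne L _ h2I' h2I) hz
  have h3 : analyticOrderAt L.den z = 0 := by
    rw [hden]
    exact analyticOrderAt_eq_zero.2 (Or.inr one_ne_zero)
  have h2 : meromorphicOrderAt L.den z = 0 := by
    classical
    rw [hden, meromorphicOrderAt_const, if_neg one_ne_zero]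
  refine ⟨?_, h1, ?_⟩
  · rw [h3]
    exact ENat.zero_ne_top
  · rw [h2, add_zero, hnum]

lemma toNat_diff (a : ℤ) : ((a.toNat : ℤ) - ((-a).toNat : ℤ) : ℤ) = a := by
  rcases le_total 0 a with h4 | h4
  · rw [Int.toNat_of_nonneg h4, Int.toNat_of_nonpos (by omega)]; simp
  · rw [Int.toNat_of_nonneg (by omega : 0 ≤ -a), Int.toNat_of_nonpos h4]; simp

lemma toNat_diffC (a : ℤ) : ((a.toNat : ℂ) - ((-a).toNat : ℂ)) = (a : ℂ) := by
  have h2 : (((a.toNat : ℤ) - ((-a).toNat : ℤ) : ℤ) : ℂ) = ((a : ℤ) : ℂ) := by rw [toNat_diff]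
  push_cast at h2
  exact h2

/-- (FDR) -/
theorem pf_FDR (h1 : T_FIS) (h2 : T_RVF) (h3 : T_MND) (h4 : Pool.Agent.H25.DP.T_DI2) : T_FDR := by
  classical
  intro k χ τ c m ε hinj hd0 hdm hsq hε
  choose L hLn hnum hden hA hh using fun i => h4 (χ i)
  have hL : ∀ i, Agrees (L i) (χ i).L := fun i => agrees_dir (χ i) (L i) (hnum i) (hden i)
  have hm : 1 ≤ m := by
    rcases Nat.eq_zero_or_pos m with hm | hm
    · subst hm
      push_cast at hdm
      omega
    · exact hm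
  let F : Fam :=
    { I := Σ i : Fin k, Fin (c i).toNat
      J := Σ i : Fin k, Fin (-c i).toNat
      fI := inferInstance
      fJ := inferInstance
      p := fun x => ⟨L x.1, 1, τ x.1, one_pos⟩
      q := fun x => ⟨L x.1, 1, τ x.1, one_pos⟩ }
  have hFd : F.d = ∑ i, (c i : ℝ) := by
    change ∑ x : (Σ i : Fin k, Fin (c i).toNat), (1 : ℝ) * ((L x.1).n : ℝ) -
      ∑ x : (Σ i : Fin k, Fin (-c i).toNat), (1 : ℝ) * ((L x.1).n : ℝ) = _
    rw [sum_sigma_fin (fun i => (c i).toNat) (fun i => (1 : ℝ) * ((L i).n : ℝ)),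
      sum_sigma_fin (fun i => (-c i).toNat) (fun i => (1 : ℝ) * ((L i).n : ℝ)),
      ← Finset.sum_sub_distrib]
    refine Finset.sum_congr rfl fun i _ => ?_
    rw [hLn, nsmul_eq_mul, nsmul_eq_mul, Nat.cast_one, one_mul, mul_one, mul_one]
    have h5 : ((((c i).toNat : ℤ) - ((-c i).toNat : ℤ) : ℤ) : ℝ) = ((c i : ℤ) : ℝ) := by
      rw [toNat_diff]
    push_cast at h5
    exact h5
  have hFd' : F.d = ((∑ i, c i : ℤ) : ℝ) := by rw [hFd]; push_cast; rfl
  -- the mean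
  have hmean : Mean (fun p => ‖(∑ i : F.I, (p : ℂ) ^ (-((F.p i).τ * I) : ℂ) * ∑ k, (F.p i).L.h k p -
        ∑ j : F.J, (p : ℂ) ^ (-((F.q j).τ * I) : ℂ) * ∑ k, (F.q j).L.h k p) / m‖ ^ 2)
      ((∑ i, (c i : ℝ) ^ 2) / m ^ 2) := by
    have h5 := h3 k χ τ c m hm hinj
    have h6 : (fun p : ℕ => ‖(∑ i : F.I, (p : ℂ) ^ (-((F.p i).τ * I) : ℂ) * ∑ k, (F.p i).L.h k p -
        ∑ j : F.J, (p : ℂ) ^ (-((F.q j).τ * I) : ℂ) * ∑ k, (F.q j).L.h k p) / m‖ ^ 2) =
        fun p : ℕ => ‖(∑ i, (c i : ℂ) * chz (χ i) p * (p : ℂ) ^ (-(τ i * I) : ℂ)) / m‖ ^ 2 := by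
      ext p
      congr 3
      have h7 : ∀ i : Fin k, ∑ l, (L i).h l p = chz (χ i) p := by
        intro i
        simp only [hh]
        rw [Finset.sum_const, Finset.card_univ, Fintype.card_fin, hLn, one_smul]
      change ∑ x : (Σ i : Fin k, Fin (c i).toNat), (p : ℂ) ^ (-(τ x.1 * I) : ℂ) *
          (∑ l, (L x.1).h l p) -
        ∑ x : (Σ i : Fin k, Fin (-c i).toNat), (p : ℂ) ^ (-(τ x.1 * I) : ℂ) *
          (∑ l, (L x.1).h l p) = _
      rw [sum_sigma_fin (fun i => (c i).toNat) (fun i => (p : ℂ) ^ (-(τ i * I) : ℂ) *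
          (∑ l, (L i).h l p)),
        sum_sigma_fin (fun i => (-c i).toNat) (fun i => (p : ℂ) ^ (-(τ i * I) : ℂ) *
          (∑ l, (L i).h l p)), ← Finset.sum_sub_distrib]
      refine Finset.sum_congr rfl fun i _ => ?_
      rw [h7, nsmul_eq_mul, nsmul_eq_mul, ← sub_mul, toNat_diffC]
      ring
    rw [h6]
    exact h5
  have hm0 : (0 : ℝ) < (m : ℝ) ^ 2 := by
    have : (0 : ℝ) < m := by exact_mod_cast hm
    positivity
  have hα0 : 0 < (∑ i, (c i : ℝ) ^ 2) / (m : ℝ) ^ 2 := by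
    refine div_pos ?_ hm0
    have h5 : ∃ i, c i ≠ 0 := by
      by_contra h6
      push Not at h6
      simp [h6] at hd0
    obtain ⟨i, hi⟩ := h5
    refine Finset.sum_pos' (fun j _ => sq_nonneg _) ⟨i, Finset.mem_univ i, ?_⟩
    have h7 : (c i : ℝ) ≠ 0 := by exact_mod_cast hi
    positivity
  have hα1 : (∑ i, (c i : ℝ) ^ 2) / (m : ℝ) ^ 2 < 1 := by
    rw [div_lt_one hm0]
    exact_mod_cast hsq
  have hRV := h2 F m _ hm (fun _ => rfl) (fun _ => rfl) hα0 hmean
  obtain ⟨T₀, h⟩ := h1 F m _ ε (fun _ => rfl) (fun _ => rfl) hm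
    (by rw [hFd']; exact_mod_cast hd0) (by rw [hFd']; exact_mod_cast hdm) hα0 hα1 hRV hε
  obtain ⟨T₁, hT₁⟩ := exists_height (fun _ : Fin k => (1 : ℝ)) τ 1 one_pos (fun _ => le_rfl)
  refine ⟨max (max T₀ 0) T₁, fun T hT => ?_⟩
  have hT0 : 0 ≤ T := ((le_max_right _ _).trans (le_max_left _ _)).trans hT
  obtain ⟨Z, hZ, hz⟩ := h T (((le_max_left _ _).trans (le_max_left _ _)).trans hT)
  rw [hFd] at hZ
  refine ⟨Z, hZ, fun z hzZ => ?_⟩
  obtain ⟨h1', h2', h3'⟩ := hz z hzZ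
  have h1q : T / 4 ≤ z.im := by linarith
  refine ⟨h1', h2', ?_⟩
  have hp : ∀ i, 0 < (wl 1 (τ i) z).im := hT₁ T ((le_max_right _ _).trans hT) z h1q
  have hN := order_N F z (fun x => hp x.1) (fun x => hp x.1)
  have hM := order_M F z (fun x => hp x.1) (fun x => hp x.1)
  choose a b hab1 hab2 hab3 using fun i => nat_orders (hL i) (hp i)
  have hN' : analyticOrderAt F.N z =
      ((∑ i, (c i).toNat * a i + ∑ i, (-c i).toNat * b i : ℕ) : ℕ∞) := by
    rw [hN]
    change (∑ x : (Σ i : Fin k, Fin (c i).toNat), analyticOrderAt (L x.1).num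
        (wl 1 (τ x.1) z)) + ∑ x : (Σ i : Fin k, Fin (-c i).toNat),
        analyticOrderAt (L x.1).den (wl 1 (τ x.1) z) = _
    rw [sum_sigma_fin (fun i => (c i).toNat) (fun i => analyticOrderAt (L i).num (wl 1 (τ i) z)),
      sum_sigma_fin (fun i => (-c i).toNat) (fun i => analyticOrderAt (L i).den (wl 1 (τ i) z))]
    simp only [hab1, hab2, nsmul_eq_mul]
    push_cast
    rfl
  have hM' : analyticOrderAt F.M z =
      ((∑ i, (c i).toNat * b i + ∑ i, (-c i).toNat * a i : ℕ) : ℕ∞) := by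
    rw [hM]
    change (∑ x : (Σ i : Fin k, Fin (c i).toNat), analyticOrderAt (L x.1).den
        (wl 1 (τ x.1) z)) + ∑ x : (Σ i : Fin k, Fin (-c i).toNat),
        analyticOrderAt (L x.1).num (wl 1 (τ x.1) z) = _
    rw [sum_sigma_fin (fun i => (c i).toNat) (fun i => analyticOrderAt (L i).den (wl 1 (τ i) z)),
      sum_sigma_fin (fun i => (-c i).toNat) (fun i => analyticOrderAt (L i).num (wl 1 (τ i) z))]
    simp only [hab1, hab2, nsmul_eq_mul]
    push_cast
    rfl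
  rintro ⟨j, hj⟩
  apply h3' j
  rw [hN', hM', ← Nat.cast_add, Nat.cast_inj]
  have hord : ∀ i, (meromorphicOrderAt (χ i).L (z + τ i * I)).untop₀ = (a i : ℤ) - (b i : ℤ) := by
    intro i
    rw [← wl_one, hab3 i, WithTop.untop₀_coe]
  simp only [hord] at hj
  have key : ∀ i, ((c i).toNat : ℤ) * a i + ((-c i).toNat : ℤ) * b i =
      ((c i).toNat : ℤ) * b i + ((-c i).toNat : ℤ) * a i + c i * ((a i : ℤ) - (b i : ℤ)) := by
    intro i
    rcases le_total 0 (c i) with h4 | h4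
    · rw [Int.toNat_of_nonneg h4, Int.toNat_of_nonpos (by omega)]
      push_cast
      ring
    · rw [Int.toNat_of_nonneg (by omega : 0 ≤ -c i), Int.toNat_of_nonpos h4]
      push_cast
      ring
  have h5 : ((∑ i, (c i).toNat * a i + ∑ i, (-c i).toNat * b i : ℕ) : ℤ) =
      ((∑ i, (c i).toNat * b i + ∑ i, (-c i).toNat * a i + m * j : ℕ) : ℤ) := by
    push_cast
    rw [← hj, ← Finset.sum_add_distrib, ← Finset.sum_add_distrib, ← Finset.sum_add_distrib]
    exact Finset.sum_congr rfl fun i _ => key i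
  exact_mod_cast h5

end Pool.Agent.H87.RT
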