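import Pool.Agent.H87.RT.MSLa

/-!
# Orders of zeros modulo `m` (energy method): module MSL, lower bound for the mean square of the
left side
-/

set_option autoImplicit false

open Complex MeasureTheory Set Filter Topology

namespace Pool.Agent.H87.RT

open Pool.Agent.H29.RT Pool.Agent.H25.DL Pool.Agent.H25.DP Pool.Agent.H39.DP

/-- (MSL) -/
theorem pf_MSL (h : T_GRP) (h1 : T_IM) : T_MSL := by
  intro ι _ f β D x₁ x₂ δ hr hβ hx₁ hx hxD hD1 hδ
  have hD : 0 < D := by linarith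
  obtain ⟨hg1, hg2, -, hg4⟩ := h ι f D hr hD
  obtain ⟨CM, hCM, hIM⟩ := h1
  obtain ⟨C1, hC1, hb1⟩ := hg4 (1 / 2) (by norm_num)
  obtain ⟨C2, hC2, hb2⟩ := hg4 ((1 - D) / 4) (by linarith)
  obtain ⟨q, hq⟩ : ∃ q : ℝ, q = 2 ^ Fintype.card ι := ⟨_, rfl⟩
  have hq1 : 1 ≤ q := by rw [hq]; exact one_le_pow₀ (by norm_num)
  have hq0 : 0 < q := by linarith
  -- constants
  obtain ⟨K1, hK1⟩ : ∃ K1 : ℝ, K1 = √(4 * Real.pi) / β := ⟨_, rfl⟩
  have hK10 : 0 ≤ K1 := by rw [hK1]; positivity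
  obtain ⟨K2, hK2⟩ : ∃ K2 : ℝ, K2 = (C2 * q ^ ((1 - D) / 4)) ^ 2 * (2 * CM) * (2 * Kc * q ^ 2) *
    ((x₂ - x₁) * (4 / (1 - D))) := ⟨_, rfl⟩
  have hexp : ∀ᶠ T : ℝ in atTop, 8 / 35 * T * (Real.exp (-(β ^ 2 * (δ * Real.log T) ^ 2 / 4)) * K1) *
      (C1 ^ 2 * T) ≤ 1 := by
    have e1 : Tendsto (fun L : ℝ => 8 / 35 * K1 * C1 ^ 2 *
        Real.exp (2 * L - β ^ 2 * (δ * L) ^ 2 / 4)) atTop (𝓝 (8 / 35 * K1 * C1 ^ 2 * 0)) := by
      refine Tendsto.const_mul _ (Real.tendsto_exp_atBot.comp ?_)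
      have e2 : (fun L : ℝ => 2 * L - β ^ 2 * (δ * L) ^ 2 / 4) =
          fun L : ℝ => L * (2 - β ^ 2 * δ ^ 2 / 4 * L) := by
        ext L; ring
      rw [e2]
      refine Tendsto.atTop_mul_atBot₀ tendsto_id ?_
      have e3 : Tendsto (fun L : ℝ => β ^ 2 * δ ^ 2 / 4 * L) atTop atTop :=
        Tendsto.const_mul_atTop (by positivity) tendsto_id
      have e4 := tendsto_neg_atTop_atBot.comp e3
      simpa [sub_eq_add_neg, Function.comp_def] using tendsto_atBot_add_const_left atTop 2 e4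
    rw [mul_zero] at e1
    have e5 := (e1.comp Real.tendsto_log_atTop).eventually (Iic_mem_nhds zero_lt_one)
    filter_upwards [e5, eventually_gt_atTop 0] with T hT hT0
    have e6 : 8 / 35 * K1 * C1 ^ 2 *
        Real.exp (2 * Real.log T - β ^ 2 * (δ * Real.log T) ^ 2 / 4) ≤ 1 := hT
    have e7 : Real.exp (2 * Real.log T - β ^ 2 * (δ * Real.log T) ^ 2 / 4) =
        T ^ 2 * Real.exp (-(β ^ 2 * (δ * Real.log T) ^ 2 / 4)) := by
      rw [sub_eq_add_neg, Real.exp_add, two_mul, Real.exp_add, Real.exp_log hT0]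
      ring
    rw [e7] at e6
    refine le_trans (le_of_eq ?_) e6
    ring
  have hev := (((hexp.and (ev_rpow (2 * K2) (D - (1 - D) / 4) D (by linarith))).and
    (ev_rpow 2 0 D hD)).and (eventually_ge_atTop 1))
  obtain ⟨T₀, hT₀⟩ := eventually_atTop.1 hev
  refine ⟨1 - D, T₀, by linarith, fun T hT => ?_⟩
  obtain ⟨⟨⟨ha1, ha2⟩, ha3⟩, hT1⟩ := hT₀ T hT
  have hT0 : 0 < T := by linarith
  have hL0 : 0 ≤ Real.log T := Real.log_nonneg hT1
  rw [Real.rpow_zero, mul_one] at ha3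
  have hc1 : (1 - (1 - D)) = D := by ring
  rw [hc1]
  have hW : (0 : ℝ) < T / 2 := by linarith
  have hHW : 7 * T / 4 = 5 * T / 4 + T / 2 := by ring
  obtain ⟨N, hN⟩ : ∃ N : ℕ, N = NL ι D T := ⟨_, rfl⟩
  have hNle : (N : ℝ) ≤ q * T ^ D := by
    rw [hN, hq]
    exact Nat.floor_le (by positivity)
  obtain ⟨y₁, hy₁⟩ : ∃ y : ℝ, y = T ^ (x₁ + δ) := ⟨_, rfl⟩
  obtain ⟨y₂, hy₂⟩ : ∃ y : ℝ, y = T ^ (x₂ - δ) := ⟨_, rfl⟩
  have hy₁0 : 0 ≤ y₁ := by rw [hy₁]; positivity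
  have hy₂0 : 0 ≤ y₂ := by rw [hy₂]; positivity
  have hy₂D : y₂ ≤ T ^ D := by
    rw [hy₂]
    exact Real.rpow_le_rpow_of_exponent_le hT1 (by linarith)
  have hy₂T : y₂ ≤ T := by
    refine hy₂D.trans ?_
    calc T ^ D ≤ T ^ (1 : ℝ) := Real.rpow_le_rpow_of_exponent_le hT1 (by linarith)
      _ = T := Real.rpow_one T
  -- the off-diagonal terms
  obtain ⟨Off, hOff⟩ : ∃ Off : ℝ, Off = ∑ k ∈ Finset.Icc 1 N, ∑ k' ∈ (Finset.Icc 1 N).erase k,
    ‖aa f D T k‖ * ‖aa f D T k'‖ * ‖II (5 * T / 4) (T / 2) (Real.log k - Real.log k')‖ := ⟨_, rfl⟩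
  have hOff1 : Off ≤ (C2 * (N : ℝ) ^ ((1 - D) / 4)) ^ 2 * (2 * CM / T) * (2 * Kc * (N : ℝ) ^ 2) := by
    have o1 : ∀ k ∈ Finset.Icc 1 N, ∀ k' ∈ (Finset.Icc 1 N).erase k,
        ‖aa f D T k‖ * ‖aa f D T k'‖ * ‖II (5 * T / 4) (T / 2) (Real.log k - Real.log k')‖ ≤
        (C2 * (N : ℝ) ^ ((1 - D) / 4)) ^ 2 * (2 * CM / T) * (2 * N *
          |(((k : ℤ) - (k' : ℤ) : ℤ) : ℝ)| ^ (-(3 / 2) : ℝ)) := by
      intro k hk k' hk'
      rw [Finset.mem_erase, Finset.mem_Icc] at hk'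
      rw [Finset.mem_Icc] at hk
      obtain ⟨hne, hk1', hkN'⟩ := hk'
      obtain ⟨hk1, hkN⟩ := hk
      have hk0 : (0 : ℝ) < k := by exact_mod_cast hk1
      have hk0' : (0 : ℝ) < k' := by exact_mod_cast hk1'
      have hlog : Real.log k - Real.log k' ≠ 0 := by
        intro h0
        have h0' := Real.log_injOn_pos (Set.mem_Ioi.2 hk0) (Set.mem_Ioi.2 hk0') (by linarith)
        exact hne (by exact_mod_cast h0'.symm)
      have o2 := (hIM (5 * T / 4) (T / 2) (Real.log k - Real.log k') hW).2 hlog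
      have o2' : ‖II (5 * T / 4) (T / 2) (Real.log k - Real.log k')‖ ≤
          (2 * CM / T) * ((Real.log k - Real.log k') ^ 2)⁻¹ := by
        refine o2.trans (le_of_eq ?_)
        field_simp
      have o3 : ∀ j : ℕ, 1 ≤ j → j ≤ N → ‖at' f D T j‖ ≤ C2 * (N : ℝ) ^ ((1 - D) / 4) := by
        intro j hj1 hjN
        refine ((hb2 j hj1).2 T hT1).trans ?_
        have : (j : ℝ) ≤ N := by exact_mod_cast hjN
        have h5 : (0 : ℝ) ≤ (1 - D) / 4 := by linarith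
        gcongr
      rw [norm_aa_le f D T hk1, norm_aa_le f D T hk1']
      have o4 := gap hk1 hk1' hkN hkN' (Ne.symm hne)
      have o5 := o3 k hk1 hkN
      have o6 := o3 k' hk1' hkN'
      have o7 : 0 ≤ 2 * CM / T := by positivity
      calc _ ≤ (C2 * (N : ℝ) ^ ((1 - D) / 4)) * (√(k : ℝ))⁻¹ *
            ((C2 * (N : ℝ) ^ ((1 - D) / 4)) * (√(k' : ℝ))⁻¹) *
            ((2 * CM / T) * ((Real.log k - Real.log k') ^ 2)⁻¹) := by gcongr
        _ = (C2 * (N : ℝ) ^ ((1 - D) / 4)) ^ 2 * (2 * CM / T) *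
            ((√(k : ℝ))⁻¹ * (√(k' : ℝ))⁻¹ * ((Real.log k - Real.log k') ^ 2)⁻¹) := by ring
        _ ≤ _ := by gcongr
    rw [hOff]
    calc _ ≤ ∑ k ∈ Finset.Icc 1 N, (C2 * (N : ℝ) ^ ((1 - D) / 4)) ^ 2 * (2 * CM / T) *
          (2 * N * Kc) := by
          refine Finset.sum_le_sum fun k hk => ?_
          refine (Finset.sum_le_sum (o1 k hk)).trans ?_
          rw [← Finset.mul_sum, ← Finset.mul_sum]
          have := sum_le_Kc ((Finset.Icc 1 N).erase k) k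
          gcongr
      _ = _ := by
          rw [Finset.sum_const, nsmul_eq_mul, Nat.card_Icc]
          simp only [Nat.add_sub_cancel]
          ring
  have hOff2 : Off * ((x₂ - x₁) * Real.log T) ≤ 1 / 2 * T ^ D := by
    have p1 : Real.log T ≤ T ^ ((1 - D) / 4) / ((1 - D) / 4) :=
      Real.log_le_rpow_div hT0.le (by linarith)
    have p2 : (N : ℝ) ^ ((1 - D) / 4) ≤ q ^ ((1 - D) / 4) * T ^ (D * ((1 - D) / 4)) := by
      calc (N : ℝ) ^ ((1 - D) / 4) ≤ (q * T ^ D) ^ ((1 - D) / 4) :=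
            Real.rpow_le_rpow (Nat.cast_nonneg _) hNle (by linarith)
        _ = _ := by rw [Real.mul_rpow hq0.le (by positivity), ← Real.rpow_mul hT0.le]
    have hKc := Kc_nonneg
    have hx12 : 0 ≤ x₂ - x₁ := by linarith
    have hD14 : 0 < (1 - D) / 4 := by linarith
    calc Off * ((x₂ - x₁) * Real.log T) ≤
        ((C2 * (q ^ ((1 - D) / 4) * T ^ (D * ((1 - D) / 4)))) ^ 2 * (2 * CM / T) *
          (2 * Kc * (q * T ^ D) ^ 2)) * ((x₂ - x₁) * (T ^ ((1 - D) / 4) / ((1 - D) / 4))) := by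
          refine mul_le_mul (hOff1.trans ?_) ?_ (mul_nonneg hx12 hL0) (by positivity)
          · gcongr
          · gcongr
      _ = K2 * ((T ^ (D * ((1 - D) / 4))) ^ 2 * T⁻¹ * (T ^ D) ^ 2 * T ^ ((1 - D) / 4)) := by
          have h14 : (1 - D) ≠ 0 := by linarith
          have h15 : T ^ ((1 - D) / 4) / ((1 - D) / 4) = T ^ ((1 - D) / 4) * (4 / (1 - D)) := by
            field_simp
          rw [hK2, div_eq_mul_inv (2 * CM) T, h15]
          ring
      _ = K2 * T ^ (D * ((1 - D) / 2) + -1 + 2 * D + (1 - D) / 4) := by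
          have r1 : (T ^ (D * ((1 - D) / 4))) ^ 2 = T ^ (D * ((1 - D) / 2)) := by
            rw [← Real.rpow_natCast, ← Real.rpow_mul hT0.le]
            congr 1
            push_cast
            ring
          have r2 : (T ^ D) ^ 2 = T ^ (2 * D) := by
            rw [← Real.rpow_natCast, ← Real.rpow_mul hT0.le]
            congr 1
            push_cast
            ring
          rw [r1, r2, Real.rpow_add hT0, Real.rpow_add hT0, Real.rpow_add hT0, Real.rpow_neg_one]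
      _ ≤ K2 * T ^ (D - (1 - D) / 4) := by
          refine mul_le_mul_of_nonneg_left ?_ ?_
          · refine Real.rpow_le_rpow_of_exponent_le hT1 ?_
            have h16 : D * ((1 - D) / 2) + -1 + 2 * D + (1 - D) / 4 =
                D - (1 - D) / 4 - (1 - D) ^ 2 / 2 := by ring
            rw [h16]
            linarith [sq_nonneg (1 - D)]
          · rw [hK2]
            have : 0 ≤ 4 / (1 - D) := div_nonneg (by norm_num) (by linarith)
            positivity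
      _ ≤ 1 / 2 * T ^ D := by linarith
  -- the bound for fixed ξ
  obtain ⟨g, hg⟩ : ∃ g : ℕ → ℝ → ℝ, g = fun (k : ℕ) ξ =>
    Real.exp (-(β ^ 2 * (Real.log k - ξ) ^ 2 / 4)) := ⟨_, rfl⟩
  have hg0 : ∀ k ξ, 0 ≤ g k ξ := fun k ξ => by rw [hg]; positivity
  have hg1' : ∀ k ξ, g k ξ ≤ 1 := fun k ξ => by
    rw [hg]
    have h17 := mul_nonneg (sq_nonneg β) (sq_nonneg (Real.log k - ξ))
    exact Real.exp_le_one_iff.2 (by linarith)
  have hgc : ∀ k, Continuous (g k) := fun k => by rw [hg]; fun_prop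
  have hfix : ∀ ξ : ℝ, 8 / 35 * T * ∑ k ∈ Finset.Icc 1 N, ‖aa f D T k‖ ^ 2 * g k ξ ^ 2 - Off ≤
      ∫ u in (5 * T / 4)..(7 * T / 4), om ((u - 5 * T / 4) / (T / 2)) * ‖AL f β D T ξ u‖ ^ 2 := by
    intro ξ
    have i1 := quad_ge (5 * T / 4) (T / 2) hW (Finset.Icc 1 N)
      (fun k => aa f D T k * (g k ξ : ℂ)) (fun k => Real.log k)
    have i2 : ∀ u, AL f β D T ξ u = ∑ k ∈ Finset.Icc 1 N, (aa f D T k * (g k ξ : ℂ)) *
        cexp ((u * Real.log k : ℝ) * I) := by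
      intro u
      rw [AL_eq h f β D T ξ u hr hD hT1, hN, hg]
    simp only [i2]
    rw [hHW]
    refine le_trans ?_ i1
    have i3 : ∀ k, ‖aa f D T k * (g k ξ : ℂ)‖ = ‖aa f D T k‖ * g k ξ := fun k => by
      rw [norm_mul, Complex.norm_real, Real.norm_of_nonneg (hg0 k ξ)]
    simp only [i3, mul_pow]
    have i4 : ∑ k ∈ Finset.Icc 1 N, ∑ k' ∈ (Finset.Icc 1 N).erase k,
        ‖aa f D T k‖ * g k ξ * (‖aa f D T k'‖ * g k' ξ) *
        ‖II (5 * T / 4) (T / 2) (Real.log k - Real.log k')‖ ≤ Off := by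
      rw [hOff]
      refine Finset.sum_le_sum fun k _ => Finset.sum_le_sum fun k' _ => ?_
      refine mul_le_mul_of_nonneg_right ?_ (norm_nonneg _)
      exact mul_le_mul (mul_le_of_le_one_right (norm_nonneg _) (hg1' k ξ))
        (mul_le_of_le_one_right (norm_nonneg _) (hg1' k' ξ))
        (mul_nonneg (norm_nonneg _) (hg0 k' ξ)) (norm_nonneg _)
    have i5 : 16 / 35 * (T / 2) = 8 / 35 * T := by ring
    rw [i5]
    linarith
  -- integration over ξ
  have hLx : x₁ * Real.log T ≤ x₂ * Real.log T := mul_le_mul_of_nonneg_right hx.le hL0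
  have hcont : Continuous fun ξ : ℝ => ∫ u in (5 * T / 4)..(7 * T / 4),
      om ((u - 5 * T / 4) / (T / 2)) * ‖AL f β D T ξ u‖ ^ 2 := by
    refine intervalIntegral.continuous_parametric_intervalIntegral_of_continuous' ?_ _ _
    have hAc : Continuous fun p : ℝ × ℝ => AL f β D T p.1 p.2 := by
      unfold AL
      refine continuous_finsetSum _ fun z _ => ?_
      fun_prop
    exact (continuous_om.comp (by fun_prop)).mul (hAc.norm.pow 2)
  have hcont2 : Continuous fun ξ : ℝ => 8 / 35 * T *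
      ∑ k ∈ Finset.Icc 1 N, ‖aa f D T k‖ ^ 2 * g k ξ ^ 2 - Off := by
    refine (continuous_const.mul (continuous_finsetSum _ fun k _ => ?_)).sub continuous_const
    exact continuous_const.mul ((hgc k).pow 2)
  have hint := intervalIntegral.integral_mono_on (μ := volume) hLx (hcont2.intervalIntegrable _ _)
    (hcont.intervalIntegrable _ _) (fun ξ _ => hfix ξ)
  refine le_trans ?_ hint
  have hs1 : ∫ ξ in (x₁ * Real.log T)..(x₂ * Real.log T), (8 / 35 * T *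
      ∑ k ∈ Finset.Icc 1 N, ‖aa f D T k‖ ^ 2 * g k ξ ^ 2 - Off) =
      8 / 35 * T * ∑ k ∈ Finset.Icc 1 N, ‖aa f D T k‖ ^ 2 *
        (∫ ξ in (x₁ * Real.log T)..(x₂ * Real.log T), g k ξ ^ 2) -
        Off * ((x₂ - x₁) * Real.log T) := by
    rw [intervalIntegral.integral_sub, intervalIntegral.integral_const_mul,
      intervalIntegral.integral_finsetSum, intervalIntegral.integral_const, smul_eq_mul]
    · congr 1
      · congr 1
        refine Finset.sum_congr rfl fun k _ => ?_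
        rw [intervalIntegral.integral_const_mul]
      · ring
    · intro k _
      exact (continuous_const.mul ((hgc k).pow 2)).intervalIntegrable _ _
    · exact (continuous_const.mul (continuous_finsetSum _ fun k _ =>
        continuous_const.mul ((hgc k).pow 2))).intervalIntegrable _ _
    · exact continuous_const.intervalIntegrable _ _
  rw [hs1]
  -- the diagonal
  obtain ⟨Q, hQ⟩ : ∃ Q : ℝ, Q = ∑ k ∈ Finset.Ioc ⌊y₁⌋₊ ⌊y₂⌋₊, ‖ac f k‖ ^ 2 / k := ⟨_, rfl⟩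
  have hQ0 : 0 ≤ Q := by rw [hQ]; exact Finset.sum_nonneg fun k _ => by positivity
  have hQ1 : En f y₂ - En f y₁ ≤ Q := by
    unfold En
    have j1 : Finset.Icc 1 ⌊y₂⌋₊ ⊆ Finset.Icc 1 ⌊y₁⌋₊ ∪ Finset.Ioc ⌊y₁⌋₊ ⌊y₂⌋₊ := by
      intro k hk
      rw [Finset.mem_union, Finset.mem_Icc, Finset.mem_Ioc]
      rw [Finset.mem_Icc] at hk
      omega
    have j2 := Finset.sum_le_sum_of_subset_of_nonneg (f := fun k : ℕ => ‖ac f k‖ ^ 2 / (k : ℝ)) j1
      (fun k _ _ => by positivity)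
    have j3 := Finset.sum_union (f := fun k : ℕ => ‖ac f k‖ ^ 2 / (k : ℝ))
      (s₁ := Finset.Icc 1 ⌊y₁⌋₊) (s₂ := Finset.Ioc ⌊y₁⌋₊ ⌊y₂⌋₊) (by
        rw [Finset.disjoint_left]
        intro k hk hk'
        rw [Finset.mem_Icc] at hk
        rw [Finset.mem_Ioc] at hk'
        omega)
    rw [hQ]
    linarith
  have hQ2 : Q ≤ C1 ^ 2 * T := by
    have j1 : Q ≤ ∑ k ∈ Finset.Ioc ⌊y₁⌋₊ ⌊y₂⌋₊, C1 ^ 2 := by
      rw [hQ]
      refine Finset.sum_le_sum fun k hk => ?_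
      rw [Finset.mem_Ioc] at hk
      have hk1 : 1 ≤ k := by omega
      have hk0 : (0 : ℝ) < k := by exact_mod_cast hk1
      have j2 := (hb1 k hk1).1
      rw [div_le_iff₀ hk0]
      calc ‖ac f k‖ ^ 2 ≤ (C1 * (k : ℝ) ^ (1 / 2 : ℝ)) ^ 2 :=
            pow_le_pow_left₀ (norm_nonneg _) j2 2
        _ = C1 ^ 2 * k := by
            rw [mul_pow, ← Real.sqrt_eq_rpow, Real.sq_sqrt hk0.le]
    refine j1.trans ?_
    rw [Finset.sum_const, nsmul_eq_mul, Nat.card_Ioc]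
    have j3 : ((⌊y₂⌋₊ - ⌊y₁⌋₊ : ℕ) : ℝ) ≤ T := by
      calc ((⌊y₂⌋₊ - ⌊y₁⌋₊ : ℕ) : ℝ) ≤ (⌊y₂⌋₊ : ℝ) := by exact_mod_cast Nat.sub_le _ _
        _ ≤ y₂ := Nat.floor_le hy₂0
        _ ≤ T := hy₂T
    calc _ ≤ T * C1 ^ 2 := mul_le_mul_of_nonneg_right j3 (sq_nonneg _)
      _ = _ := mul_comm _ _
  obtain ⟨G, hG⟩ : ∃ G : ℝ, G = √(2 * Real.pi) / β := ⟨_, rfl⟩
  have hG0 : 0 ≤ G := by rw [hG]; positivity
  obtain ⟨tl, htl⟩ : ∃ tl : ℝ, tl = Real.exp (-(β ^ 2 * (δ * Real.log T) ^ 2 / 4)) * K1 := ⟨_, rfl⟩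
  have htl0 : 0 ≤ tl := by rw [htl]; positivity
  have hdiag : (G - tl) * Q ≤ ∑ k ∈ Finset.Icc 1 N, ‖aa f D T k‖ ^ 2 *
        (∫ ξ in (x₁ * Real.log T)..(x₂ * Real.log T), g k ξ ^ 2) := by
    have hint0 : ∀ k, 0 ≤ ∫ ξ in (x₁ * Real.log T)..(x₂ * Real.log T), g k ξ ^ 2 := fun k =>
      intervalIntegral.integral_nonneg hLx fun ξ _ => sq_nonneg _
    have j1 : Finset.Ioc ⌊y₁⌋₊ ⌊y₂⌋₊ ⊆ Finset.Icc 1 N := by
      intro k hk
      rw [Finset.mem_Ioc] at hk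
      rw [Finset.mem_Icc]
      refine ⟨by omega, hk.2.trans ?_⟩
      rw [hN]
      unfold NL
      refine Nat.floor_le_floor (hy₂D.trans ?_)
      rw [← hq]
      exact le_mul_of_one_le_left (by positivity) hq1
    refine le_trans ?_ (Finset.sum_le_sum_of_subset_of_nonneg j1 fun k _ _ =>
      mul_nonneg (sq_nonneg _) (hint0 k))
    rw [hQ, Finset.mul_sum]
    refine Finset.sum_le_sum fun k hk => ?_
    rw [Finset.mem_Ioc] at hk
    have hk1 : 1 ≤ k := by omega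
    have hk0 : (0 : ℝ) < k := by exact_mod_cast hk1
    have j2 : y₁ ≤ k := (Nat.lt_of_floor_lt hk.1).le
    have j3 : (k : ℝ) ≤ y₂ := (Nat.le_floor_iff hy₂0).1 hk.2
    have j4 : at' f D T k = ac f k := hg1 T hT1 k hk1 (j3.trans hy₂D)
    rw [norm_aa_sq f D T hk1, j4, mul_comm]
    refine mul_le_mul_of_nonneg_left ?_ (by positivity)
    have j5 : (x₁ + δ) * Real.log T ≤ Real.log k := by
      rw [← Real.log_rpow hT0, ← hy₁]
      exact Real.log_le_log (by rw [hy₁]; positivity) j2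
    have j6 : Real.log k ≤ (x₂ - δ) * Real.log T := by
      rw [← Real.log_rpow hT0, ← hy₂]
      exact Real.log_le_log hk0 j3
    have j7 := gauss_ge (β := β) (R := δ * Real.log T) (a := x₁ * Real.log T)
      (b := x₂ * Real.log T) (l := Real.log k) hβ (mul_nonneg hδ.le hL0) (by linarith) (by linarith)
    rw [hG, htl, hK1]
    refine j7.trans (le_of_eq ?_)
    rw [hg]
  rw [← hG, ← hy₁, ← hy₂]
  have k1 : 8 / 35 * T * tl * Q ≤ 1 := by
    have k2 : 8 / 35 * T * tl * Q ≤ 8 / 35 * T * tl * (C1 ^ 2 * T) := by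
      refine mul_le_mul_of_nonneg_left hQ2 (by positivity)
    rw [← htl] at ha1
    linarith
  have k3 : 8 / 35 * T * G * (En f y₂ - En f y₁) ≤ 8 / 35 * T * G * Q :=
    mul_le_mul_of_nonneg_left hQ1 (by positivity)
  have k4 := mul_le_mul_of_nonneg_left hdiag (by positivity : 0 ≤ 8 / 35 * T)
  have k5 : 8 / 35 * T * ((G - tl) * Q) = 8 / 35 * T * G * Q - 8 / 35 * T * tl * Q := by ring
  linarith

end Pool.Agent.H87.RT
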